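import Mathlib

/-!
Three paths of the lengths two, at most five and three side by side, the path of length five in
the middle.
-/

set_option autoImplicit false

namespace Pool.Agent.Helper1.T3

variable {J : Type*} [LinearOrder J] {a b : J ≃o J}

/-- Three paths from the top (height `a`) to the bottom (height `1`): on the left side one with the
interior height `u` and the flows `U`, `V`, in the middle one with the heights `z i` and the flows
`Z i`, on the right side one with the heights `w j` and the flows `W j`. -/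
structure C253 (a b u U V : J ≃o J) (z Z w W : ℕ → J ≃o J) : Prop where
  hk : ∀ x, b x ≤ a x
  z0 : ∀ x, z 0 x = a x
  z5 : ∀ x, z 5 x = x
  w0 : ∀ x, w 0 x = a x
  w3 : ∀ x, w 3 x = x
  zlo : ∀ i x, i ≤ 5 → x ≤ z i x
  zhi : ∀ i x, i ≤ 5 → z i x ≤ a x
  wlo : ∀ i x, i ≤ 3 → x ≤ w i x
  whi : ∀ i x, i ≤ 3 → w i x ≤ a x
  uhi : ∀ x, u x ≤ a x
  ulo : ∀ x, x ≤ u x
  u1 : ∀ x, a x ≤ u (U x)
  u2 : ∀ x, u x ≤ V x
  zst : ∀ i x, i < 5 → z i x ≤ z (i + 1) (Z (i + 1) x)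
  wst : ∀ i x, i < 3 → w i x ≤ w (i + 1) (W (i + 1) x)
  zge : ∀ i x, x ≤ Z i x
  wge : ∀ i x, x ≤ W i x
  zf1 : ∀ x, x < Z 1 x
  zf5 : ∀ x, x < Z 5 x
  wf1 : ∀ x, x < W 1 x
  wf3 : ∀ x, x < W 3 x
  flat : ∀ i x, i < 5 → z i x < z (i + 1) x → Z (i + 1) x = x
  cutU : ∀ i j x, i < 5 → j < 3 → u (U x) ≤ z i (U x) →
    z (i + 1) (Z (i + 1) (U x)) ≤ w j (Z (i + 1) (U x)) →
    w (j + 1) (Z (i + 1) (U x)) ≤ z i (Z (i + 1) (U x)) →
    (w 2 (Z (i + 1) (U x)) ≤ w 1 (Z (i + 1) (U x)) ∨ (i = 0 ∧ j = 0) ∨ (i = 4 ∧ j = 2)) →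
    W (j + 1) (Z (i + 1) (U x)) ≤ b x
  cutV : ∀ i j x, i < 5 → j < 3 → z (i + 1) (V x) ≤ u (V x) →
    z (i + 1) (Z (i + 1) (V x)) ≤ w j (Z (i + 1) (V x)) →
    w (j + 1) (Z (i + 1) (V x)) ≤ z i (Z (i + 1) (V x)) →
    (w 2 (Z (i + 1) (V x)) ≤ w 1 (Z (i + 1) (V x)) ∨ (i = 0 ∧ j = 0) ∨ (i = 4 ∧ j = 2)) →
    W (j + 1) (Z (i + 1) (V x)) ≤ b x

namespace C253

variable {u U V : J ≃o J} {z Z w W : ℕ → J ≃o J} (S : C253 a b u U V z Z w W)
include S

lemma q1 (x : J) : a x ≤ z 1 (Z 1 x) := by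
  have := S.zst 0 x (by norm_num)
  rwa [S.z0] at this
lemma q2 (x : J) : z 1 x ≤ z 2 (Z 2 x) := S.zst 1 x (by norm_num)
lemma q3 (x : J) : z 2 x ≤ z 3 (Z 3 x) := S.zst 2 x (by norm_num)
lemma q4 (x : J) : z 3 x ≤ z 4 (Z 4 x) := S.zst 3 x (by norm_num)
lemma q5 (x : J) : z 4 x ≤ Z 5 x := by
  have := S.zst 4 x (by norm_num)
  rwa [S.z5] at this
lemma p1 (x : J) : a x ≤ w 1 (W 1 x) := by
  have := S.wst 0 x (by norm_num)
  rwa [S.w0] at this
lemma p2 (x : J) : w 1 x ≤ w 2 (W 2 x) := S.wst 1 x (by norm_num)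
lemma p3 (x : J) : w 2 x ≤ W 3 x := by
  have := S.wst 2 x (by norm_num)
  rwa [S.w3] at this

lemma pfull (s : J) : a s ≤ W 3 (W 2 (W 1 s)) := by
  have e1 := S.p1 s
  have e2 := S.p2 (W 1 s)
  have e3 := S.p3 (W 2 (W 1 s))
  order

lemma qfull (s : J) : a s ≤ Z 5 (Z 4 (Z 3 (Z 2 (Z 1 s)))) := by
  have e1 := S.q1 s
  have e2 := S.q2 (Z 1 s)
  have e3 := S.q3 (Z 2 (Z 1 s))
  have e4 := S.q4 (Z 3 (Z 2 (Z 1 s)))
  have e5 := S.q5 (Z 4 (Z 3 (Z 2 (Z 1 s))))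
  order

/-- The bound of the cuts through the lower edge of the left path. -/
def c (b V : J ≃o J) : J ≃o J := V.symm.trans b

omit S in
lemma c_V (x : J) : c b V (V x) = b x := by
  change b (V.symm (V x)) = b x
  rw [OrderIso.symm_apply_apply]

lemma hcV (x : J) : c b V (V x) ≤ a x := by
  rw [c_V]; exact S.hk x

/-- Cuts through the upper edge of the left path are bounded by `u`. -/
lemma ub (y x : J) (h : y ≤ b x) : y ≤ u (U x) := by
  have e1 := S.hk x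
  have e2 := S.u1 x
  order

lemma cU' (i j : ℕ) (r : J) (hi : i < 5) (hj : j < 3) (h0 : u r ≤ z i r)
    (h1 : z (i + 1) (Z (i + 1) r) ≤ w j (Z (i + 1) r))
    (h2 : w (j + 1) (Z (i + 1) r) ≤ z i (Z (i + 1) r))
    (h3 : w 2 (Z (i + 1) r) ≤ w 1 (Z (i + 1) r) ∨ (i = 0 ∧ j = 0) ∨ (i = 4 ∧ j = 2)) :
    W (j + 1) (Z (i + 1) r) ≤ u r := by
  obtain ⟨x, rfl⟩ := U.surjective r
  exact S.ub _ _ (S.cutU i j x hi hj h0 h1 h2 h3)

lemma cV' (i j : ℕ) (r : J) (hi : i < 5) (hj : j < 3) (h0 : z (i + 1) r ≤ u r)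
    (h1 : z (i + 1) (Z (i + 1) r) ≤ w j (Z (i + 1) r))
    (h2 : w (j + 1) (Z (i + 1) r) ≤ z i (Z (i + 1) r))
    (h3 : w 2 (Z (i + 1) r) ≤ w 1 (Z (i + 1) r) ∨ (i = 0 ∧ j = 0) ∨ (i = 4 ∧ j = 2)) :
    W (j + 1) (Z (i + 1) r) ≤ c b V r := by
  obtain ⟨x, rfl⟩ := V.surjective r
  rw [c_V]
  exact S.cutV i j x hi hj h0 h1 h2 h3

/-- The top edges. -/
lemma top11 (r : J) : W 1 (Z 1 r) ≤ u r := by
  refine S.cU' 0 0 r (by norm_num) (by norm_num) ?_ ?_ ?_ (by tauto)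
  · rw [S.z0]; exact S.uhi r
  · rw [S.w0]; exact S.zhi 1 _ (by norm_num)
  · rw [S.z0]; exact S.whi 1 _ (by norm_num)

/-- The bottom edges. -/
lemma bot53 (r : J) : W 3 (Z 5 r) ≤ c b V r := by
  refine S.cV' 4 2 r (by norm_num) (by norm_num) ?_ ?_ ?_ (by tauto)
  · change z 5 r ≤ _; rw [S.z5]; exact S.ulo r
  · change z 5 _ ≤ _; rw [S.z5]; exact S.wlo 2 _ (by norm_num)
  · change w 3 _ ≤ _; rw [S.w3]; exact S.zlo 4 _ (by norm_num)

lemma top11' (r : J) : W 1 (Z 1 r) ≤ V r := (S.top11 r).trans (S.u2 r)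
lemma W1c (x : J) : W 1 x < V x := ((W 1).strictMono (S.zf1 x)).trans_le (S.top11' x)
lemma Z1c (x : J) : Z 1 x < V x := (S.wf1 _).trans_le (S.top11' x)
lemma W3c (x : J) : W 3 x < c b V x := ((W 3).strictMono (S.zf5 x)).trans_le (S.bot53 x)
lemma Z5c (x : J) : Z 5 x < c b V x := (S.wf3 _).trans_le (S.bot53 x)

/-- The right path is monotone. -/
lemma mono (t : J) : w 2 t < w 1 t := by
  by_contra hn
  push Not at hn
  obtain ⟨s, rfl⟩ := (W 1).surjective t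
  have e1 := S.p1 s
  have e2 := S.p3 (W 1 s)
  have e3 := S.W3c (W 1 s)
  have e4 := (c b V).strictMono (S.W1c s)
  have e5 := S.hcV s
  order

/-- Cuts through the upper edge of the left path. -/
lemma cU (i j : ℕ) (r : J) (hi : i < 5) (hj : j < 3) (h0 : u r ≤ z i r)
    (h1 : z (i + 1) (Z (i + 1) r) ≤ w j (Z (i + 1) r))
    (h2 : w (j + 1) (Z (i + 1) r) ≤ z i (Z (i + 1) r)) :
    W (j + 1) (Z (i + 1) r) ≤ u r :=
  S.cU' i j r hi hj h0 h1 h2 (Or.inl (S.mono _).le)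

/-- Cuts through the lower edge of the left path. -/
lemma cV (i j : ℕ) (r : J) (hi : i < 5) (hj : j < 3) (h0 : z (i + 1) r ≤ u r)
    (h1 : z (i + 1) (Z (i + 1) r) ≤ w j (Z (i + 1) r))
    (h2 : w (j + 1) (Z (i + 1) r) ≤ z i (Z (i + 1) r)) :
    W (j + 1) (Z (i + 1) r) ≤ c b V r :=
  S.cV' i j r hi hj h0 h1 h2 (Or.inl (S.mono _).le)

lemma z4u (r : J) : z 4 r < u r := by
  by_contra hn
  push Not at hn
  have e1 := S.cU 4 2 r (by norm_num) (by norm_num) hn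
    (by change z 5 _ ≤ _; rw [S.z5]; exact S.wlo 2 _ (by norm_num))
    (by change w 3 _ ≤ _; rw [S.w3]; exact S.zlo 4 _ (by norm_num))
  have e2 := S.wf3 (Z 5 r)
  have e3 := S.q5 r
  simp only [Nat.reduceAdd] at e1
  order

/-- (1) -/
lemma s1a (t : J) : w 1 t < z 1 t := by
  by_contra hn
  push Not at hn
  obtain ⟨s, rfl⟩ := (Z 1).surjective t
  have e1 := S.q1 s
  have e2 := S.p2 (Z 1 s)
  have e3 := S.p3 (W 2 (Z 1 s))
  have e4 := S.cU 0 1 s (by norm_num) (by norm_num) (by rw [S.z0]; exact S.uhi s) hn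
    (by rw [S.z0]; exact S.whi 2 _ (by norm_num))
  simp only [Nat.reduceAdd] at e4
  have e5 := (W 3).monotone (e4.trans (S.u2 s))
  have e6 := S.W3c (V s)
  have e7 := S.hcV s
  order

lemma s1b (t : J) : w 2 t < z 1 t := (S.mono t).trans (S.s1a t)

lemma s1c (t : J) : z 4 t < w 1 t := by
  by_contra hn
  push Not at hn
  obtain ⟨s, rfl⟩ := (W 1).surjective t
  have e1 := S.p1 s
  have e2 := S.q5 (W 1 s)
  have e3 := S.Z5c (W 1 s)
  have e4 := (c b V).strictMono (S.W1c s)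
  have e5 := S.hcV s
  order

/-- (2) -/
lemma s2a (s : J) : Z 5 (V s) ≤ W 2 (W 1 s) := by
  have e1 := S.bot53 (V s)
  have e2 := S.hcV s
  have e3 := S.pfull s
  exact (W 3).le_iff_le.mp (by order)

lemma s2b (s : J) : V s < W 2 (W 1 s) := (S.zf5 _).trans_le (S.s2a s)

lemma s2c (x : J) : Z 5 x < W 2 x := by
  obtain ⟨s, rfl⟩ := (W 1).surjective x
  have e1 := S.bot53 (W 1 (Z 1 s))
  have e2 := (c b V).monotone (S.top11' s)
  have e3 := S.hcV s
  have e4 := S.pfull s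
  have e5 := (W 3).strictMono ((Z 5).strictMono ((W 1).strictMono (S.zf1 s)))
  exact (W 3).lt_iff_lt.mp (by order)

/-- (K) -/
lemma sK (i : ℕ) (r : J) (hi : i < 5) (h1 : z (i + 1) (Z (i + 1) r) ≤ w 2 (Z (i + 1) r)) :
    W 3 (Z (i + 1) r) ≤ c b V r := by
  have h2 : w 3 (Z (i + 1) r) ≤ z i (Z (i + 1) r) := by
    rw [S.w3]; exact S.zlo i _ (by omega)
  rcases le_or_gt (z (i + 1) r) (u r) with h | h
  · exact S.cV i 2 r hi (by norm_num) h h1 h2
  · rcases le_or_gt (u r) (z i r) with h' | h'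
    · have e1 := S.cU i 2 r hi (by norm_num) h' h1 h2
      simp only [Nat.reduceAdd] at e1
      have e2 := (z (i + 1)).monotone (S.zge (i + 1) r)
      have e3 := S.p3 (Z (i + 1) r)
      order
    · rw [S.flat i r hi (by order)]
      exact (S.W3c r).le

/-- The inequality of the trick. -/
lemma trick (s r : J) (h1 : r < V s) (h2 : a s ≤ u r) : c b V r < V r := by
  have e1 := (c b V).strictMono h1
  have e2 := S.hcV s
  have e3 := S.u2 r
  order

/-- (I2) -/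
lemma sI (j : ℕ) (r : J) (hj : j < 3) (h1 : z 2 (Z 2 r) ≤ w j (Z 2 r))
    (h2 : w (j + 1) (Z 2 r) ≤ z 1 (Z 2 r)) :
    W (j + 1) (Z 2 r) ≤ V r ∨ (Z 2 r = r ∧ z 1 r < u r ∧ u r < z 2 r) := by
  rcases le_or_gt (u r) (z 1 r) with h | h
  · left
    exact (S.cU 1 j r (by norm_num) hj h h1 h2).trans (S.u2 r)
  · rcases le_or_gt (z 2 r) (u r) with h' | h'
    · left
      have e1 := S.cV 1 j r (by norm_num) hj h' h1 h2
      simp only [Nat.reduceAdd] at e1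
      obtain ⟨s, rfl⟩ := (Z 1).surjective r
      have e2 := S.trick s (Z 1 s) (S.Z1c s) ((S.q1 s).trans h.le)
      order
    · right
      exact ⟨S.flat 1 r (by norm_num) (h.trans h'), h, h'⟩

/-- (3) -/
lemma s3 (t : J) : w 2 t < z 2 t := by
  by_contra hn
  push Not at hn
  obtain ⟨r, rfl⟩ := (Z 2).surjective t
  obtain ⟨s, rfl⟩ := (Z 1).surjective r
  have e1 := S.q1 s
  have e2 := S.q2 (Z 1 s)
  have e3 := S.p3 (Z 2 (Z 1 s))
  have e4 := S.sK 1 (Z 1 s) (by norm_num) hn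
  have e5 := (c b V).strictMono (S.Z1c s)
  have e6 := S.hcV s
  order

/-- (4) -/
lemma s4 (t : J) : w 2 t < z 3 t := by
  by_contra hn
  push Not at hn
  obtain ⟨q, rfl⟩ := (Z 3).surjective t
  have e1 := S.sK 2 q (by norm_num) hn
  have e2 := S.q3 q
  have e3 := S.p3 (Z 3 q)
  have e4 : z 2 q ≤ c b V q := by order
  rcases le_or_gt (w 1 q) (z 2 q) with h | h
  · obtain ⟨s, rfl⟩ := (W 1).surjective q
    have e5 := S.p1 s
    have e6 := (c b V).strictMono (S.W1c s)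
    have e7 := S.hcV s
    order
  · obtain ⟨p, rfl⟩ := (Z 2).surjective q
    have e5 : W 2 (Z 2 p) ≤ V p := by
      rcases S.sI 1 p (by norm_num) h.le (S.s1b _).le with h1 | ⟨h1, h2, h3⟩
      · exact h1
      · rw [h1] at h
        have := S.s1a p
        exact absurd h (by order)
    have e6 := S.zf5 (W 2 (Z 2 p))
    have e7 := (Z 5).monotone e5
    have e8 := S.s2a p
    have e9 : Z 2 p < W 1 p := (W 2).lt_iff_lt.mp (by order)
    obtain ⟨s, rfl⟩ := (Z 1).surjective p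
    have e10 := S.q1 s
    have e11 := S.q2 (Z 1 s)
    have e12 := (c b V).strictMono e9
    have e13 := (c b V).monotone (S.top11' s)
    have e14 := S.hcV s
    order

/-- (5) -/
lemma c42 (r : J) : W 2 (Z 4 r) ≤ c b V r :=
  S.cV 3 1 r (by norm_num) (by norm_num) (S.z4u r).le (S.s1c _).le (S.s4 _).le

lemma W2c (r : J) : W 2 r ≤ c b V r := ((W 2).monotone (S.zge 4 r)).trans (S.c42 r)

lemma Z54 (r : J) : Z 5 (Z 4 r) < c b V r := (S.s2c _).trans_le (S.c42 r)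

lemma s5 (t : J) : z 3 t < w 1 t := by
  by_contra hn
  push Not at hn
  obtain ⟨s, rfl⟩ := (W 1).surjective t
  have e1 := S.p1 s
  have e2 := S.q4 (W 1 s)
  have e3 := S.q5 (Z 4 (W 1 s))
  have e4 := S.Z54 (W 1 s)
  have e5 := (c b V).strictMono (S.W1c s)
  have e6 := S.hcV s
  order

/-- (6) -/
lemma s6 (r : J) (h : z 2 r ≤ u r) : c b V r < V r := by
  rcases le_or_gt (w 1 r) (u r) with h1 | h1
  · obtain ⟨s, rfl⟩ := (W 1).surjective r
    exact S.trick s _ (S.W1c s) ((S.p1 s).trans h1)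
  · obtain ⟨q, rfl⟩ := (Z 2).surjective r
    have e1 : W 2 (Z 2 q) ≤ V q := by
      rcases S.sI 1 q (by norm_num) (h.trans h1.le) (S.s1b _).le with h2 | ⟨h2, h3, h4⟩
      · exact h2
      · rw [h2] at h
        exact absurd h (by order)
    have e2 := S.s2b q
    have e3 : Z 2 q < W 1 q := (W 2).lt_iff_lt.mp (by order)
    obtain ⟨s, rfl⟩ := (Z 1).surjective q
    have e4 := S.top11' s
    have e5 := S.q1 s
    have e6 := S.q2 (Z 1 s)
    exact S.trick s _ (by order) (by order)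

/-- (7) -/
lemma c21 (r : J) : W 1 (Z 2 r) ≤ V r := by
  rcases S.sI 0 r (by norm_num) (by rw [S.w0]; exact S.zhi 2 _ (by norm_num)) (S.s1a _).le
    with h | ⟨h, -, -⟩
  · exact h
  · rw [h]; exact (S.W1c r).le

lemma c32V (r : J) : W 2 (Z 3 r) ≤ V r := by
  rcases le_or_gt (u r) (z 2 r) with h | h
  · exact (S.cU 2 1 r (by norm_num) (by norm_num) h (S.s5 _).le (S.s3 _).le).trans (S.u2 r)
  · have e1 := S.s6 r h.le
    rcases le_or_gt (z 3 r) (u r) with h' | h'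
    · have e2 := S.cV 2 1 r (by norm_num) (by norm_num) h' (S.s5 _).le (S.s3 _).le
      exact e2.trans e1.le
    · rw [S.flat 2 r (by norm_num) (h.trans h')]
      exact (S.W2c r).trans e1.le

lemma c32c (r : J) : W 2 (Z 3 r) ≤ c b V r := by
  rcases le_or_gt (z 3 r) (u r) with h | h
  · exact S.cV 2 1 r (by norm_num) (by norm_num) h (S.s5 _).le (S.s3 _).le
  · rcases le_or_gt (u r) (z 2 r) with h' | h'
    · have e1 := S.cU 2 1 r (by norm_num) (by norm_num) h' (S.s5 _).le (S.s3 _).le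
      simp only [Nat.reduceAdd] at e1
      have e2 := S.q4 r
      have e3 := S.q5 (Z 4 r)
      have e4 := S.Z54 r
      order
    · rw [S.flat 2 r (by norm_num) (h'.trans h)]
      exact S.W2c r

lemma Z3W1 (r : J) : Z 3 r < W 1 r := by
  have e1 := S.c32V r
  have e2 := S.s2b r
  exact (W 2).lt_iff_lt.mp (by order)

lemma Z32 (r : J) : Z 3 (Z 2 r) < V r := (S.Z3W1 _).trans_le (S.c21 r)

/-- (8) -/
lemma s8 (x : J) : W 1 x < Z 3 (Z 2 x) := by
  obtain ⟨s, rfl⟩ := (Z 1).surjective x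
  have e1 := S.c42 (W 1 (Z 1 s))
  have e2 := (c b V).monotone (S.top11' s)
  have e3 := S.hcV s
  have e4 := S.qfull s
  have e5 := S.s2c (Z 4 (Z 3 (Z 2 (Z 1 s))))
  have e6 : W 2 (Z 4 (W 1 (Z 1 s))) < W 2 (Z 4 (Z 3 (Z 2 (Z 1 s)))) := by order
  exact (Z 4).lt_iff_lt.mp ((W 2).lt_iff_lt.mp e6)

/-- (9) -/
lemma s9 (t : J) : z 4 t < w 2 t := by
  by_contra hn
  push Not at hn
  obtain ⟨y, rfl⟩ := (W 2).surjective t
  obtain ⟨s, rfl⟩ := (W 1).surjective y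
  obtain ⟨x, hx⟩ := (Z 3).surjective (W 1 s)
  have e1 := S.p1 s
  have e2 := S.p2 (W 1 s)
  have e3 := S.q5 (W 2 (W 1 s))
  have e4 := S.hcV s
  have e5 := (c b V).monotone (S.c21 s)
  have e6 := S.c32V x
  rw [hx] at e6
  have e7 := (Z 5).monotone e6
  have e8 := S.s2a x
  have e9 := S.W2c (W 1 x)
  have e10 : W 1 (Z 2 s) ≤ W 1 x := (c b V).le_iff_le.mp (by order)
  have e11 : Z 2 s ≤ x := (W 1).le_iff_le.mp e10
  have e12 := (Z 3).monotone e11
  have e13 := S.s8 s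
  order

lemma c43 (r : J) : W 3 (Z 4 r) ≤ c b V r :=
  S.cV 3 2 r (by norm_num) (by norm_num) (S.z4u r).le (S.s9 _).le
    (by change w 3 _ ≤ _; rw [S.w3]; exact S.zlo 3 _ (by norm_num))

lemma s9b (s : J) : Z 4 (V s) ≤ W 2 (W 1 s) := by
  have e1 := S.c43 (V s)
  have e2 := S.hcV s
  have e3 := S.pfull s
  exact (W 3).le_iff_le.mp (by order)

/-- (10) -/
lemma s10 (t : J) : w 1 t < z 2 t := by
  by_contra hn
  push Not at hn
  obtain ⟨g, hg⟩ := (Z 4).surjective (W 2 t)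
  obtain ⟨x1, hx1⟩ := (Z 3).surjective g
  obtain ⟨x2, hx2⟩ := (Z 2).surjective x1
  obtain ⟨p, hp⟩ := (Z 1).surjective x2
  obtain ⟨h, hh⟩ := V.surjective g
  -- `t ≤ W₁ h`
  have e1 := S.c43 g
  have e2 := S.hcV h
  have e3 := S.pfull h
  rw [hh] at e2
  have e4 : Z 4 g ≤ W 2 (W 1 h) := (W 3).le_iff_le.mp (by order)
  rw [hg] at e4
  have e5 : t ≤ W 1 h := (W 2).le_iff_le.mp e4
  -- `h < Z₁ p`
  have e6 := S.Z32 (Z 1 p)
  have e7 : V h < V (Z 1 p) := by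
    rw [hh, ← hx1, ← hx2, ← hp]; exact e6
  have e8 : h < Z 1 p := V.lt_iff_lt.mp e7
  have e9 := (W 1).strictMono e8
  have e10 := S.top11' p
  have e11 := S.qfull p
  rw [hp, hx2, hx1, hg] at e11
  have e12 := S.hcV p
  have e13 : t < V p := by order
  have e14 := (c b V).strictMono e13
  -- the other side
  obtain ⟨x, hx⟩ := (c b V).surjective (Z 5 (W 2 t))
  obtain ⟨k, rfl⟩ := (Z 2).surjective t
  have e15 : Z 2 k < x := (c b V).lt_iff_lt.mp (by order)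
  have e16 : W 2 (Z 2 k) ≤ V k := by
    rcases S.sI 1 k (by norm_num) hn (S.s1b _).le with h1 | ⟨h1, h2, h3⟩
    · exact h1
    · rw [h1] at hn
      have := S.s1a k
      exact absurd hn (by order)
  have e17 := S.c32c x
  have e18 := (Z 5).monotone e16
  have e19 := S.s2a k
  have e20 : Z 3 x ≤ W 1 k := (W 2).le_iff_le.mp (by order)
  have e21 := S.s8 k
  have e22 : x < Z 2 k := (Z 3).lt_iff_lt.mp (by order)
  order

/-- There is no such configuration. -/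
theorem false (s : J) : False := by
  -- `Z₄ W₁ < V`
  have h1 : ∀ x, Z 4 (W 1 x) < V x := by
    intro x
    obtain ⟨r, rfl⟩ := (Z 2).surjective x
    have e1 := (Z 4).monotone (S.c21 r)
    have e2 := S.s9b r
    have e3 := (W 2).strictMono (S.s8 r)
    have e4 := S.c32V (Z 2 r)
    order
  -- `c₂ < Z₅ Z₄ Z₃`
  have h2 : ∀ x, c b V x < Z 5 (Z 4 (Z 3 x)) := by
    intro x
    obtain ⟨r, rfl⟩ := V.surjective x
    have e1 := S.hk r
    have e2 := S.p1 r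
    have e3 := S.s10 (W 1 r)
    have e4 := S.q3 (W 1 r)
    have e5 := S.q4 (Z 3 (W 1 r))
    have e6 := S.q5 (Z 4 (Z 3 (W 1 r)))
    have e7 := (Z 5).strictMono ((Z 4).strictMono ((Z 3).strictMono (S.W1c r)))
    rw [c_V]
    order
  have h3 : ∀ x, W 2 x < Z 5 (Z 4 x) := by
    intro x
    obtain ⟨r, rfl⟩ := (Z 3).surjective x
    exact (S.c32c r).trans_lt (h2 r)
  have e1 := S.s2a s
  have e2 := h3 (W 1 s)
  have e3 : V s < Z 4 (W 1 s) := (Z 5).lt_iff_lt.mp (by order)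
  have e4 := h1 s
  order

end C253

end Pool.Agent.Helper1.T3
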