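import Pool.Agent.Helper31.T3.Face
import Pool.Agent.Helper1.T3.P253

/-!
Three paths of the lengths two, five and three side by side, the path of length five in the
middle: the abstract configuration from the labels of the faces.
-/

set_option autoImplicit false

namespace Pool.Agent.Helper1.T3

open Pool.Agent.Helper31.T3

variable {J : Type*} [LinearOrder J] {a b : J ≃o J}

private lemma st {n : ℕ} (P : FPth a b n (fun _ => 1)) (i : ℕ) (z : J) (hi : i < n) :
    P.h i z ≤ P.h (i + 1) (P.F (i + 1) z) := by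
  have := P.step i z hi
  simpa using this

private lemma gt {n i : ℕ} (P : FPth a b n (fun _ => 1)) (z : J) (h : P.r i z < P.l i z) :
    z < P.F i z := FPth.dn_iff.mp h

private lemma mono2 (R : FPth a b 2 (fun _ => 1)) (t : J) : R.Mono t := by
  intro i hi
  interval_cases i
  · rw [R.top]; exact R.hi _ _
  · change R.h 2 t ≤ _
    rw [R.bot]; exact R.lo _ _

private lemma mono3 (P : FPth a b 3 (fun _ => 1)) (t : J) (h : P.h 2 t ≤ P.h 1 t) : P.Mono t := by
  intro i hi
  interval_cases i
  · rw [P.top]; exact P.hi _ _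
  · exact h
  · change P.h 3 t ≤ _
    rw [P.bot]; exact P.lo _ _

/-- Three paths of the lengths two, at most five, three; from the left to the right. -/
theorem conf253 (hk : ∀ z, b z ≤ a z) (R : FPth a b 2 (fun _ => 1))
    (Q : FPth a b 5 (fun _ => 1)) (P : FPth a b 3 (fun _ => 1)) (h1 : R.Left Q) (h2 : Q.Left P)
    (h3 : R.Left P) : C253 a b (R.h 1) (R.F 1) (R.F 2) Q.h Q.F P.h P.F where
  hk := hk
  z0 := Q.top
  z5 := Q.bot
  w0 := P.top
  w3 := P.bot
  zlo := fun i x _ => Q.lo i x
  zhi := fun i x _ => Q.hi i x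
  wlo := fun i x _ => P.lo i x
  whi := fun i x _ => P.hi i x
  uhi := R.hi 1
  ulo := R.lo 1
  u1 := fun x => by
    have := st R 0 x (by norm_num)
    rwa [R.top] at this
  u2 := fun x => by
    have := st R 1 x (by norm_num)
    rwa [R.bot] at this
  zst := fun i x hi => st Q i x hi
  wst := fun i x hi => st P i x hi
  zge := Q.ge
  wge := P.ge
  zf1 := fun x => gt Q x (Q.fst x)
  zf5 := fun x => gt Q x (Q.lst x)
  wf1 := fun x => gt P x (P.fst x)
  wf3 := fun x => gt P x (P.lst x)
  flat := fun i x hi h => by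
    apply FPth.not_dn
    intro hd
    exact absurd (Q.down i x hi hd) (not_le.mpr h)
  cutU := by
    intro i j x hi hj h0 h4 h5 h6
    refine FPth.cut3 h1 h2 h3 0 i j x (by norm_num) hi hj (Or.inl (mono2 R _)) ⟨h0, ?_⟩ ?_
      ⟨h4, h5⟩ (Or.inl (mono2 R _))
    · rw [R.top]; exact Q.hi _ _
    · rcases h6 with h6 | h6 | h6
      · exact Or.inr (Or.inl (mono3 P _ h6))
      · exact Or.inr (Or.inr (Or.inl h6))
      · exact Or.inr (Or.inr (Or.inr (by omega)))
  cutV := by
    intro i j x hi hj h0 h4 h5 h6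
    refine FPth.cut3 h1 h2 h3 1 i j x (by norm_num) hi hj (Or.inl (mono2 R _)) ⟨?_, h0⟩ ?_
      ⟨h4, h5⟩ (Or.inl (mono2 R _))
    · change R.h 2 _ ≤ _
      rw [R.bot]; exact Q.lo _ _
    · rcases h6 with h6 | h6 | h6
      · exact Or.inr (Or.inl (mono3 P _ h6))
      · exact Or.inr (Or.inr (Or.inl h6))
      · exact Or.inr (Or.inr (Or.inr (by omega)))

/-- Three paths of the lengths two, at most five, three; from the left to the right; `r ≤ 1`. -/
theorem three253 (hk : ∀ z, b z ≤ a z) (R : FPth a b 2 (fun _ => 1))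
    (Q : FPth a b 5 (fun _ => 1)) (P : FPth a b 3 (fun _ => 1)) (h1 : R.Left Q) (h2 : Q.Left P)
    (h3 : R.Left P) (z₀ : J) : False :=
  (conf253 hk R Q P h1 h2 h3).false z₀

end Pool.Agent.Helper1.T3
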